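import Pool.Agent.Lib.MP_07117b_nt_h64.Defs
import Pool.Agent.Lib.MP_07117b_nt_h62.Step1

/-! MP_07117b_nt, arboreal Galois groups: STEP 2 of the group theory. -/

namespace Pool.Agent.Arb

open Finset

section Act

variable {G A X Y : Type*} [Group G] [AddCommGroup A] [MulAction G X] [MulAction G Y]
    [AddAction A X] {p : X → Y}

/-- `g` acts on the fibre of `y` through `c`. -/
def Act (p : X → Y) (g : G) (y : Y) (c : A) : Prop := ∀ x, p x = y → g • x = c +ᵥ x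

omit [MulAction G Y] in
lemma Act.one {y : Y} : Act p (1 : G) y (0 : A) := by
  intro x _
  rw [one_smul, zero_vadd]

lemma Act.mul (hp : Fib G A X Y p) {g g' : G} {y : Y} {c c' : A} (h : Act p g y c)
    (h' : Act p g' y c') : Act p (g * g') y (c + c') := by
  intro x hx
  rw [mul_smul, h' x hx, h _ (by rw [hp.fib, hx]), add_vadd]

lemma Act.conj (hp : Fib G A X Y p) {g k : G} {y : Y} {c : A} (h : Act p g (k⁻¹ • y) c) :
    Act p (k * g * k⁻¹) y c := by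
  intro x hx
  rw [mul_smul, mul_smul, h _ (by rw [hp.equiv, hx]), hp.comm, smul_inv_smul]

lemma Act.unique (hp : Fib G A X Y p) {g : G} {y : Y} {c c' : A} (h : Act p g y c)
    (h' : Act p g y c') : c = c' := by
  obtain ⟨x, hx⟩ := hp.surj y
  exact hp.vadd_inj ((h x hx).symm.trans (h' x hx))

lemma exists_act (hp : Fib G A X Y p) {g : G} {y : Y} (hg : g • y = y) :
    ∃ c : A, Act p g y c := by
  obtain ⟨x, hx⟩ := hp.surj y
  obtain ⟨c, hc⟩ := hp.trans x (g • x) (by rw [hp.equiv, hx, hg])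
  refine ⟨c, fun x' hx' => ?_⟩
  obtain ⟨m, hm⟩ := hp.trans x x' (by rw [hx, hx'])
  rw [hm, hp.comm, hc, ← add_vadd, ← add_vadd, add_comm]

lemma Act.fix (hp : Fib G A X Y p) {g : G} {y : Y} {c : A} (h : Act p g y c) : g • y = y := by
  obtain ⟨x, rfl⟩ := hp.surj y
  rw [← hp.equiv, h x rfl, hp.fib]

lemma Act.inv (hp : Fib G A X Y p) {g : G} {y : Y} {c : A} (h : Act p g y c) :
    Act p g⁻¹ y (-c) := by
  intro x hx
  rw [inv_smul_eq_iff, hp.comm, h x hx, ← add_vadd, neg_add_cancel, zero_vadd]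

lemma Act.pow (hp : Fib G A X Y p) {g : G} {y : Y} {c : A} (h : Act p g y c) (k : ℕ) :
    Act p (g ^ k) y (k • c) := by
  induction k with
  | zero => rw [pow_zero, zero_nsmul]; exact Act.one
  | succ k ih =>
    rw [pow_succ, succ_nsmul]
    exact ih.mul hp h

/-- The vector of an element fixing the base. -/
lemma gam_of_act (hp : Fib G A X Y p) {g : G} (hg : ∀ y : Y, g • y = y) :
    ∃ γ ∈ Gam G (A := A) p, ∀ y c, Act p g y c → γ y = c := by
  obtain ⟨γ, hγ, h⟩ := gam_of_fix hp g hg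
  refine ⟨γ, hγ, fun y c hc => ?_⟩
  have : Act p g y (γ y) := fun x hx => by rw [h x, hx]
  exact this.unique hp hc

lemma fix_of_gam (hp : Fib G A X Y p) {g : G} {γ : Y → A} (h : ∀ x : X, g • x = γ (p x) +ᵥ x) :
    ∀ y : Y, g • y = y := by
  intro y
  obtain ⟨x, rfl⟩ := hp.surj y
  rw [← hp.equiv, h, hp.fib]

end Act

section Step2

variable {G L0 M0 L M : Type*} [Group G] [MulAction G L0] [MulAction G M0] [MulAction G L]
    [MulAction G M] [AddAction (ZMod 13) L0] [AddAction V4 M] [AddAction (ZMod 13) L]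
    {p0 : L0 → M0} {q : M → L0} {p : L → M}

/-- Transitivity on `L0`. -/
lemma trL (hp0 : Fib G (ZMod 13) L0 M0 p0) (hT0 : Tr G M0) (hA0 : PropA G p0) : Tr G L0 := by
  intro z z'
  obtain ⟨g, hg⟩ := hT0 (p0 z) (p0 z')
  obtain ⟨n, hn⟩ := hp0.trans (g • z) z' (by rw [hp0.equiv, hg])
  obtain ⟨γ, ⟨h, hh⟩, hm⟩ := hA0 (p0 z')
  have hrot : Act p0 h (p0 z') (γ (p0 z')) := fun x hx => by rw [hh, hx]
  have h3 : (n / γ (p0 z')).val • γ (p0 z') = n := by
    rw [nsmul_eq_mul, ZMod.natCast_val, ZMod.cast_id, div_mul_cancel₀ _ hm]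
  have h1 := hrot.pow hp0 (n / γ (p0 z')).val
  rw [h3] at h1
  refine ⟨h ^ (n / γ (p0 z')).val * g, ?_⟩
  rw [mul_smul, h1 _ (by rw [hp0.equiv, hg]), hn]

/-- Siblings can be separated by rotations. -/
def Sib (G : Type*) [Group G] [MulAction G M] [MulAction G L] (q : M → L0) (p : L → M) (z : L0) :
    Prop :=
  ∀ u u' : M, q u = z → q u' = z → u ≠ u' →
    ∃ g : G, (∀ v : M, g • v = v) ∧ Act p g u (0 : ZMod 13) ∧
      ∃ n : ZMod 13, n ≠ 0 ∧ Act p g u' n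

omit [AddAction (ZMod 13) L0] in
lemma s_ne (hq : Fib G V4 M L0 q) {w : M} {v : V4} (hv : v ≠ 0) : v +ᵥ w ≠ w :=
  fun h => hv (hq.free v w h)

lemma s_self {w : M} {v : V4} : v +ᵥ (v +ᵥ w) = w := by
  rw [← add_vadd, v4_add_self, zero_vadd]

lemma v4_neg (v : V4) : -v = v := by
  revert v; decide

/-- The commutator of the local element `c` with an element of `FixL j`. -/
lemma commutator_fix (hp0 : Fib G (ZMod 13) L0 M0 p0) (hq : Fib G V4 M L0 q) {z : L0} {c d : G}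
    (hc : ∀ z', p0 z' = p0 z → c • z' = z') {δ : L0 → V4} (hd : ∀ w : M, d • w = δ (q w) +ᵥ w)
    (hd0 : ∀ z', p0 z' ≠ p0 z → δ z' = 0) (w : M) : (c * (d * c⁻¹ * d⁻¹)) • w = w := by
  have hcomm : ∀ w : M, c • d • w = d • c • w := by
    intro w
    by_cases h : p0 (q w) = p0 z
    · have h1 := hc _ h
      rw [hd w, hd (c • w), hq.equiv, h1, hq.comm]
    · have h1 : p0 (q (c • w)) ≠ p0 z := by
        rw [hq.equiv, hp0.equiv]
        intro h2
        have h3 : c • p0 z = p0 z := by rw [← hp0.equiv, hc z rfl]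
        rw [← h3] at h2
        exact h (MulAction.injective c h2)
      rw [hd w, hd (c • w), hd0 _ h, hd0 _ h1, zero_vadd, zero_vadd]
  have h2 := hcomm ((d * c)⁻¹ • w)
  have e1 : c * (d * c⁻¹ * d⁻¹) = (c * d) * (d * c)⁻¹ := by group
  rw [e1, mul_smul, mul_smul, h2, ← mul_smul, smul_inv_smul]

/-- One node whose children can be separated. -/
lemma sib_one (hp0 : Fib G (ZMod 13) L0 M0 p0) (hq : Fib G V4 M L0 q) (hp : Fib G (ZMod 13) L M p)
    (h1 : PropC1 G p0 q) (hE : HypE G p0 q p) : ∃ z, Sib G q p z := by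
  obtain ⟨z, uO, c, hquO, hc, -, ⟨n, hn, hrot⟩, hrot0⟩ := hE
  refine ⟨z, ?_⟩
  intro u u' hqu hqu' huu
  obtain ⟨v1, hv1⟩ := hq.trans u' u (by rw [hqu, hqu'])
  obtain ⟨v2, hv2⟩ := hq.trans uO u' (by rw [hquO, hqu'])
  have hv10 : v1 ≠ 0 := by
    rintro rfl
    rw [zero_vadd] at hv1
    exact huu hv1
  obtain ⟨v, hv0, hvv⟩ : ∃ v : V4, v ≠ 0 ∧ v + v1 ≠ 0 := by
    have hdec : ∀ v1 : V4, ∃ v : V4, v ≠ 0 ∧ v + v1 ≠ 0 := by decide
    exact hdec v1
  obtain ⟨δ, ⟨d, hd⟩, hδz, hδ0⟩ := h1 z v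
  obtain ⟨δ1, ⟨d1, hd1⟩, hδ1z, -⟩ := h1 z v2
  have hdi : ∀ x : M, q x = z → d⁻¹ • x = v +ᵥ x := by
    intro x hx
    have := Act.inv hq (p := q) (g := d) (y := z) (c := v) (fun x hx => by rw [hd, hx, hδz])
    rw [this x hx, v4_neg]
  have hd1i : ∀ x : M, q x = z → d1⁻¹ • x = v2 +ᵥ x := by
    intro x hx
    have := Act.inv hq (p := q) (g := d1) (y := z) (c := v2) (fun x hx => by rw [hd1, hx, hδ1z])
    rw [this x hx, v4_neg]
  have hc0 : ∀ x : V4, x ≠ 0 → Act p c (x +ᵥ uO) (0 : ZMod 13) := by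
    intro x hx y hy
    rw [zero_vadd]
    exact hrot0 y (by rw [hy, hq.fib, hquO]) (by rw [hy]; exact s_ne hq hx)
  have hconj : ∀ (x : M) (m : ZMod 13), q x = z → Act p c (v +ᵥ x) m →
      Act p (d * c⁻¹ * d⁻¹) x (-m) := by
    intro x m hqx hr
    apply Act.conj hp
    rw [hdi x hqx]
    exact hr.inv hp
  refine ⟨d1 * (c * (d * c⁻¹ * d⁻¹)) * d1⁻¹, ?_, ?_, n, hn, ?_⟩
  · intro w
    rw [mul_smul, mul_smul, commutator_fix hp0 hq hc hd hδ0, smul_inv_smul]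
  · apply Act.conj hp
    have e1 : d1⁻¹ • u = v1 +ᵥ uO := by
      rw [hd1i u hqu, hv1, hv2, ← add_vadd, ← add_vadd, add_comm v2 v1, add_assoc, v4_add_self,
        add_zero]
    rw [e1]
    have h2 := (hc0 v1 hv10).mul hp (hconj (v1 +ᵥ uO) 0 (by rw [hq.fib, hquO]) (by
        rw [← add_vadd]
        exact hc0 _ hvv))
    simpa using h2
  · apply Act.conj hp
    have e1 : d1⁻¹ • u' = uO := by
      rw [hd1i u' hqu', hv2, s_self]
    rw [e1]
    have h2 := Act.mul hp (g := c) (y := uO) (c := n) hrot (hconj uO 0 hquO (hc0 v hv0))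
    simpa using h2

/-- All children can be separated. -/
lemma sib_all (hp0 : Fib G (ZMod 13) L0 M0 p0) (hq : Fib G V4 M L0 q) (hp : Fib G (ZMod 13) L M p)
    (hT0 : Tr G M0) (hA0 : PropA G p0) (h1 : PropC1 G p0 q) (hE : HypE G p0 q p) (z : L0) :
    Sib G q p z := by
  obtain ⟨z₀, h⟩ := sib_one hp0 hq hp h1 hE
  intro u u' hqu hqu' huu
  obtain ⟨g, hg⟩ := trL hp0 hT0 hA0 z z₀
  obtain ⟨k, hk, hr0, n, hn, hrn⟩ := h (g • u) (g • u')
    (by rw [hq.equiv, hqu, hg]) (by rw [hq.equiv, hqu', hg])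
    (fun e => huu (MulAction.injective g e))
  refine ⟨g⁻¹ * k * g⁻¹⁻¹, ?_, ?_, n, hn, ?_⟩
  · intro w
    rw [mul_smul, mul_smul, hk, smul_inv_smul]
  · apply Act.conj hp
    rw [inv_inv]; exact hr0
  · apply Act.conj hp
    rw [inv_inv]; exact hrn

end Step2

/-- row G2 (helper49) -/
theorem step2 {G L0 M0 L M : Type*} [Group G] [MulAction G L0] [MulAction G M0] [MulAction G L]
    [MulAction G M] [AddAction (ZMod 13) L0] [AddAction V4 M] [AddAction (ZMod 13) L]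
    [Finite M0] [Finite L0] [Finite M] [Finite L]
    (p0 : L0 → M0) (q : M → L0) (p : L → M)
    (hp0 : Fib G (ZMod 13) L0 M0 p0) (hq : Fib G V4 M L0 q) (hp : Fib G (ZMod 13) L M p)
    (hT0 : Tr G M0) (hA0 : PropA G p0) (h1 : PropC1 G p0 q) (h2 : PropC2 G p0 q)
    (hE : HypE G p0 q p) : Tr G M ∧ PropA G p ∧ PropB G p := by
  have hS := sib_all hp0 hq hp hT0 hA0 h1 hE
  refine ⟨?_, ?_, ?_⟩
  · intro u u'
    obtain ⟨g, hg⟩ := trL hp0 hT0 hA0 (q u) (q u')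
    obtain ⟨v, hv⟩ := hq.trans (g • u) u' (by rw [hq.equiv, hg])
    obtain ⟨δ, ⟨d, hd⟩, hδ, -⟩ := h1 (q u') v
    refine ⟨d * g, ?_⟩
    rw [mul_smul, hd, hq.equiv, hg, hδ, hv]
  · intro u
    obtain ⟨g, hg, -, n, hn, hr⟩ := hS (q u) (((1, 0) : V4) +ᵥ u) u (hq.fib _ u) rfl
      (s_ne hq (by decide))
    obtain ⟨γ, hγ, hval⟩ := gam_of_act hp hg
    exact ⟨γ, hγ, by rw [hval u n hr]; exact hn⟩
  · intro u u' huu
    suffices h : ∃ g : G, (∀ v : M, g • v = v) ∧ Act p g u (0 : ZMod 13) ∧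
        ∃ n : ZMod 13, n ≠ 0 ∧ Act p g u' n by
      obtain ⟨g, hg, h0, n, hn, hr⟩ := h
      obtain ⟨γ, hγ, hval⟩ := gam_of_act hp hg
      exact ⟨γ, hγ, hval u 0 h0, by rw [hval u' n hr]; exact hn⟩
    by_cases hqq : q u = q u'
    · exact hS (q u) u u' rfl hqq.symm huu
    · obtain ⟨δ, ⟨k, hk⟩, hk0, hkv⟩ : ∃ δ ∈ Gam G (A := V4) q, δ (q u) = 0 ∧ δ (q u') ≠ 0 := by
        by_cases hpp : p0 (q u) = p0 (q u')
        · exact h2 _ _ hpp hqq
        · obtain ⟨δ, hδ, hδv, hδ0⟩ := h1 (q u') ((1, 0) : V4)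
          exact ⟨δ, hδ, hδ0 _ hpp, by rw [hδv]; decide⟩
      have hki : k⁻¹ • u' = δ (q u') +ᵥ u' := by
        rw [inv_smul_eq_iff, hq.comm, hk, s_self]
      have hki0 : k⁻¹ • u = u := by
        rw [inv_smul_eq_iff, hk, hk0, zero_vadd]
      obtain ⟨h, hh, hh0, n, hn, hhn⟩ := hS (q u') (δ (q u') +ᵥ u') u' (hq.fib _ u') rfl
        (s_ne hq hkv)
      obtain ⟨m, hm⟩ := exists_act hp (hh u)
      refine ⟨h * (k * h⁻¹ * k⁻¹), ?_, ?_, n, hn, ?_⟩
      · intro w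
        have h3 : ∀ x : M, h⁻¹ • x = x := fun x => by rw [inv_smul_eq_iff, hh]
        rw [mul_smul, mul_smul, mul_smul, h3, smul_inv_smul, hh]
      · have e1 : Act p (k * h⁻¹ * k⁻¹) u (-m) := by
          apply Act.conj hp
          rw [hki0]
          exact hm.inv hp
        have := hm.mul hp e1
        rwa [add_neg_cancel] at this
      · have e1 : Act p (k * h⁻¹ * k⁻¹) u' (-(0 : ZMod 13)) := by
          apply Act.conj hp
          rw [hki]
          exact hh0.inv hp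
        have := hhn.mul hp e1
        rwa [neg_zero, add_zero] at this

end Pool.Agent.Arb
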