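import Pool.Agent.Lib.MP_07117b_nt_h64.LocDefs

/-!
# The field `ℚ_3(θ, ω)`, `θ ^ 3 = θ + 1`: values and residues (row PA1)
-/

namespace Pool.Agent.Arb

namespace PA1

/-- the norm form -/
def nf {R : Type*} [CommRing R] (c0 c1 c2 : R) : R :=
  c0 * ((c0 + c2) ^ 2 - c1 * (c1 + c2)) + c2 * (c2 * (c1 + c2) - c1 * (c0 + c2)) +
    c1 * (c1 ^ 2 - c2 * (c0 + c2))

lemma nf_zmod : ∀ c0 c1 c2 : ZMod 3, nf c0 c1 c2 = 0 → c0 = 0 ∧ c1 = 0 ∧ c2 = 0 := by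
  unfold nf; decide

lemma zmod3_cube : ∀ x : ZMod 3, x ^ 3 - x = 0 := by decide

variable [Fact (Nat.Prime 3)]

/-- the embedding of `ℚ_3` -/
noncomputable abbrev io : ℚ_[3] →+* PadicAlgCl 3 := algebraMap ℚ_[3] (PadicAlgCl 3)

lemma norm_io (x : ℚ_[3]) : ‖io x‖ = ‖x‖ := PadicAlgCl.norm_extends 3 x

lemma ultra (x y : PadicAlgCl 3) : ‖x + y‖ ≤ max ‖x‖ ‖y‖ := PadicAlgCl.isNonarchimedean 3 x y

lemma ultra_sub (x y : PadicAlgCl 3) : ‖x - y‖ ≤ max ‖x‖ ‖y‖ := by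
  rw [sub_eq_add_neg, ← norm_neg y]; exact ultra _ _

/-- an element of `ℚ_3(θ)` -/
noncomputable def al (θ : PadicAlgCl 3) (c0 c1 c2 : ℚ_[3]) : PadicAlgCl 3 :=
  io c0 + io c1 * θ + io c2 * θ ^ 2

lemma norm_three : ‖(3 : PadicAlgCl 3)‖ = 1 / 3 := by
  have h1 : io (3 : ℚ_[3]) = 3 := map_ofNat _ 3
  rw [← h1, norm_io]
  have := Padic.norm_p (p := 3)
  rw [show ((3 : ℕ) : ℚ_[3]) = 3 from by norm_num] at this
  rw [this]; norm_num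

lemma norm_theta_le {θ : PadicAlgCl 3} (hθ : θ ^ 3 = θ + 1) : ‖θ‖ ≤ 1 := by
  by_contra h
  push Not at h
  have h1 : ‖θ‖ ^ 3 ≤ max ‖θ‖ ‖(1 : PadicAlgCl 3)‖ := by
    rw [← norm_pow, hθ]; exact ultra _ _
  rw [norm_one, max_eq_left h.le] at h1
  nlinarith [sq_nonneg (‖θ‖ - 1)]

lemma nf_mul {θ : PadicAlgCl 3} (hθ : θ ^ 3 = θ + 1) (c0 c1 c2 : ℚ_[3]) :
    al θ c0 c1 c2 * al θ ((c0 + c2) ^ 2 - c1 * (c1 + c2)) (c2 * (c1 + c2) - c1 * (c0 + c2))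
      (c1 ^ 2 - c2 * (c0 + c2)) = io (nf c0 c1 c2) := by
  simp only [al, nf, map_add, map_sub, map_mul, map_pow]
  generalize io c0 = x; generalize io c1 = y; generalize io c2 = z
  have h4 : θ ^ 4 = θ ^ 2 + θ := by
    calc θ ^ 4 = θ * θ ^ 3 := by ring
      _ = θ ^ 2 + θ := by rw [hθ]; ring
  linear_combination ((x * 0 + y * (y ^ 2 - z * (x + z)) + z * (z * (y + z) - y * (x + z)))) * hθ +
    (z * (y ^ 2 - z * (x + z))) * h4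

lemma norm_al_le {θ : PadicAlgCl 3} (hθ : θ ^ 3 = θ + 1) (c0 c1 c2 : ℚ_[3]) :
    ‖al θ c0 c1 c2‖ ≤ max ‖c0‖ (max ‖c1‖ ‖c2‖) := by
  have h := norm_theta_le hθ
  have h1 : ‖io c1 * θ‖ ≤ ‖c1‖ := by
    rw [norm_mul, norm_io]; exact mul_le_of_le_one_right (norm_nonneg _) h
  have h2 : ‖io c2 * θ ^ 2‖ ≤ ‖c2‖ := by
    rw [norm_mul, norm_io, norm_pow]
    exact mul_le_of_le_one_right (norm_nonneg _) (pow_le_one₀ (norm_nonneg _) h)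
  refine (ultra _ _).trans (max_le ((ultra _ _).trans (max_le ?_ ?_)) ?_)
  · rw [norm_io]; exact le_max_left _ _
  · exact h1.trans ((le_max_left _ _).trans (le_max_right _ _))
  · exact h2.trans ((le_max_right _ _).trans (le_max_right _ _))

lemma toZMod_ne {c : ℤ_[3]} (h : ‖c‖ = 1) : PadicInt.toZMod c ≠ 0 := by
  intro h0
  have h1 : c ∈ RingHom.ker (PadicInt.toZMod : ℤ_[3] →+* ZMod 3) := h0
  rw [PadicInt.ker_toZMod, IsLocalRing.mem_maximalIdeal, PadicInt.mem_nonunits, h] at h1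
  exact lt_irrefl _ h1

lemma norm_eq_one_of_toZMod {c : ℤ_[3]} (h : PadicInt.toZMod c ≠ 0) : ‖c‖ = 1 := by
  by_contra h0
  apply h
  have h1 : c ∈ RingHom.ker (PadicInt.toZMod : ℤ_[3] →+* ZMod 3) := by
    rw [PadicInt.ker_toZMod, IsLocalRing.mem_maximalIdeal, PadicInt.mem_nonunits]
    exact lt_of_le_of_ne (PadicInt.norm_le_one c) h0
  exact h1

/-- integral coefficients, one of them a unit -/
lemma norm_al_unit {θ : PadicAlgCl 3} (hθ : θ ^ 3 = θ + 1) (c0 c1 c2 : ℤ_[3])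
    (h : ‖c0‖ = 1 ∨ ‖c1‖ = 1 ∨ ‖c2‖ = 1) : ‖al θ c0 c1 c2‖ = 1 := by
  have hle : ∀ a b c : ℤ_[3], ‖al θ a b c‖ ≤ 1 := fun a b c =>
    (norm_al_le hθ _ _ _).trans (max_le (PadicInt.norm_le_one a)
      (max_le (PadicInt.norm_le_one b) (PadicInt.norm_le_one c)))
  have hN : ‖nf c0 c1 c2‖ = 1 := by
    apply norm_eq_one_of_toZMod
    intro h0
    have h1 : nf (PadicInt.toZMod c0) (PadicInt.toZMod c1) (PadicInt.toZMod c2) = 0 := by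
      rw [← h0]; simp only [nf, map_add, map_sub, map_mul, map_pow]
    obtain ⟨e0, e1, e2⟩ := nf_zmod _ _ _ h1
    rcases h with h | h | h
    · exact toZMod_ne h e0
    · exact toZMod_ne h e1
    · exact toZMod_ne h e2
  have hmul := nf_mul hθ (c0 : ℚ_[3]) c1 c2
  have h2 := hle ((c0 + c2) ^ 2 - c1 * (c1 + c2)) (c2 * (c1 + c2) - c1 * (c0 + c2))
    (c1 ^ 2 - c2 * (c0 + c2))
  have h3 : ‖io (nf (c0 : ℚ_[3]) c1 c2)‖ = 1 := by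
    rw [norm_io]
    have : nf (c0 : ℚ_[3]) c1 c2 = ((nf c0 c1 c2 : ℤ_[3]) : ℚ_[3]) := by
      simp only [nf]; push_cast; ring
    rw [this]
    exact hN
  rw [← hmul, norm_mul] at h3
  have h4 := hle c0 c1 c2
  push_cast at h2
  nlinarith [norm_nonneg (al θ (c0 : ℚ_[3]) c1 c2)]

/-- **The norm on `ℚ_3(θ)`.** -/
lemma norm_al {θ : PadicAlgCl 3} (hθ : θ ^ 3 = θ + 1) (c0 c1 c2 : ℚ_[3]) :
    ‖al θ c0 c1 c2‖ = max ‖c0‖ (max ‖c1‖ ‖c2‖) := by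
  -- divide by a coefficient of maximal norm
  have key : ∀ d : ℚ_[3], d ≠ 0 → ‖c0‖ ≤ ‖d‖ → ‖c1‖ ≤ ‖d‖ → ‖c2‖ ≤ ‖d‖ →
      (‖c0‖ = ‖d‖ ∨ ‖c1‖ = ‖d‖ ∨ ‖c2‖ = ‖d‖) → ‖al θ c0 c1 c2‖ = ‖d‖ := by
    intro d hd h0 h1 h2 h
    have hd' : 0 < ‖d‖ := norm_pos_iff.mpr hd
    have hi : ∀ c : ℚ_[3], ‖c‖ ≤ ‖d‖ → ∃ x : ℤ_[3], (x : ℚ_[3]) = c / d := by
      intro c hc
      refine ⟨⟨c / d, ?_⟩, rfl⟩
      rw [norm_div, div_le_one hd']; exact hc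
    have hj : ∀ (c : ℚ_[3]) (x : ℤ_[3]), (x : ℚ_[3]) = c / d → ‖c‖ = ‖d‖ → ‖x‖ = 1 := by
      intro c x hx he
      rw [PadicInt.norm_def, hx, norm_div, he, div_self hd'.ne']
    obtain ⟨x0, hx0⟩ := hi c0 h0
    obtain ⟨x1, hx1⟩ := hi c1 h1
    obtain ⟨x2, hx2⟩ := hi c2 h2
    have hu := norm_al_unit hθ x0 x1 x2 (by
      rcases h with h | h | h
      · exact Or.inl (hj _ _ hx0 h)
      · exact Or.inr (Or.inl (hj _ _ hx1 h))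
      · exact Or.inr (Or.inr (hj _ _ hx2 h)))
    rw [hx0, hx1, hx2] at hu
    have e1 : al θ c0 c1 c2 = io d * al θ (c0 / d) (c1 / d) (c2 / d) := by
      have hd2 : io d ≠ 0 := by
        rw [Ne, map_eq_zero]; exact hd
      simp only [al, map_div₀]
      field_simp
    rw [e1, norm_mul, norm_io]
    rw [hu, mul_one]
  by_cases hz : c0 = 0 ∧ c1 = 0 ∧ c2 = 0
  · obtain ⟨rfl, rfl, rfl⟩ := hz
    simp [al]
  rcases max_choice ‖c0‖ (max ‖c1‖ ‖c2‖) with hm | hm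
  · rw [hm]
    have h1 : ‖c1‖ ≤ ‖c0‖ := by
      rw [← hm]; exact (le_max_left _ _).trans (le_max_right _ _)
    have h2 : ‖c2‖ ≤ ‖c0‖ := by
      rw [← hm]; exact (le_max_right _ _).trans (le_max_right _ _)
    refine key c0 ?_ le_rfl h1 h2 (Or.inl rfl)
    rintro rfl
    rw [norm_zero] at h1 h2
    exact hz ⟨rfl, norm_le_zero_iff.mp h1, norm_le_zero_iff.mp h2⟩
  · rcases max_choice ‖c1‖ ‖c2‖ with hm2 | hm2
    · rw [hm, hm2]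
      have h1 : ‖c0‖ ≤ ‖c1‖ := by rw [← hm2, ← hm]; exact le_max_left _ _
      have h2 : ‖c2‖ ≤ ‖c1‖ := by rw [← hm2]; exact le_max_right _ _
      refine key c1 ?_ h1 le_rfl h2 (Or.inr (Or.inl rfl))
      rintro rfl
      rw [norm_zero] at h1 h2
      exact hz ⟨norm_le_zero_iff.mp h1, rfl, norm_le_zero_iff.mp h2⟩
    · rw [hm, hm2]
      have h1 : ‖c0‖ ≤ ‖c2‖ := by rw [← hm2, ← hm]; exact le_max_left _ _
      have h2 : ‖c1‖ ≤ ‖c2‖ := by rw [← hm2]; exact le_max_left _ _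
      refine key c2 ?_ h1 h2 le_rfl (Or.inr (Or.inr rfl))
      rintro rfl
      rw [norm_zero] at h1 h2
      exact hz ⟨norm_le_zero_iff.mp h1, norm_le_zero_iff.mp h2, rfl⟩

lemma val_q {x : ℚ_[3]} (hx : x ≠ 0) : ∃ n : ℤ, ‖x‖ = (3 : ℝ) ^ n := by
  refine ⟨-x.valuation, ?_⟩
  have := Padic.norm_eq_zpow_neg_valuation hx
  exact_mod_cast this

/-- values of `ℚ_3(θ)` -/
lemma val_al {θ : PadicAlgCl 3} (hθ : θ ^ 3 = θ + 1) (c0 c1 c2 : ℚ_[3])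
    (h : al θ c0 c1 c2 ≠ 0) : ∃ n : ℤ, ‖al θ c0 c1 c2‖ = (3 : ℝ) ^ n := by
  have hpos : 0 < ‖al θ c0 c1 c2‖ := norm_pos_iff.mpr h
  rw [norm_al hθ] at hpos ⊢
  have : ∀ x : ℚ_[3], 0 < ‖x‖ → ∃ n : ℤ, ‖x‖ = (3 : ℝ) ^ n := fun x hx => val_q (norm_pos_iff.mp hx)
  rcases max_choice ‖c0‖ (max ‖c1‖ ‖c2‖) with hm | hm
  · rw [hm] at hpos ⊢; exact this _ hpos
  · rw [hm] at hpos ⊢
    rcases max_choice ‖c1‖ ‖c2‖ with hm | hm
    · rw [hm] at hpos ⊢; exact this _ hpos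
    · rw [hm] at hpos ⊢; exact this _ hpos

/-- `‖1 - ω‖ ^ 2 = 1 / 3` -/
lemma norm_pi {ω : PadicAlgCl 3} (hω : ω ^ 2 + ω + 1 = 0) : ‖1 - ω‖ ^ 2 = 1 / 3 := by
  have h1 : (1 - ω) * (3 - (1 - ω)) = 3 := by linear_combination -hω
  have h2 : ‖1 - ω‖ * ‖3 - (1 - ω)‖ = 1 / 3 := by rw [← norm_mul, h1, norm_three]
  have h3 := norm_nonneg (1 - ω)
  rcases lt_or_ge (1 / 3) ‖1 - ω‖ with h | h
  · have h4 : ‖3 - (1 - ω)‖ ≤ ‖1 - ω‖ := by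
      refine (ultra_sub _ _).trans (max_le ?_ le_rfl)
      rw [norm_three]; exact h.le
    have h5 : ‖1 - ω‖ ≤ ‖3 - (1 - ω)‖ := by
      have := ultra_sub 3 (3 - (1 - ω))
      rw [sub_sub_cancel, norm_three] at this
      rcases le_max_iff.mp this with h6 | h6
      · exact absurd h6 (not_le.mpr h)
      · exact h6
    rw [le_antisymm h4 h5] at h2
    nlinarith
  · exfalso
    have h4 : ‖3 - (1 - ω)‖ ≤ 1 / 3 := by
      refine (ultra_sub _ _).trans (max_le ?_ h)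
      rw [norm_three]
    nlinarith [norm_nonneg (3 - (1 - ω))]

/-- normal form of the elements of `F1` -/
lemma mem_form {θ ω : PadicAlgCl 3} (hθ : θ ^ 3 = θ + 1) (hω : ω ^ 2 + ω + 1 = 0)
    {y : PadicAlgCl 3} (hy : y ∈ IntermediateField.adjoin ℚ_[3] {θ, ω}) :
    ∃ c0 c1 c2 d0 d1 d2 : ℚ_[3], y = al θ c0 c1 c2 + (1 - ω) * al θ d0 d1 d2 := by
  rw [← IntermediateField.mem_toSubalgebra, IntermediateField.adjoin_toSubalgebra] at hy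
  induction hy using Algebra.adjoin_induction with
  | mem x hx =>
    rcases hx with rfl | hx
    · exact ⟨0, 1, 0, 0, 0, 0, by simp [al]⟩
    · rw [Set.mem_singleton_iff] at hx
      subst hx
      exact ⟨1, 0, 0, -1, 0, 0, by simp [al]⟩
  | algebraMap r => exact ⟨r, 0, 0, 0, 0, 0, by simp [al]⟩
  | add x y _ _ hx hy =>
    obtain ⟨c0, c1, c2, d0, d1, d2, rfl⟩ := hx
    obtain ⟨e0, e1, e2, f0, f1, f2, rfl⟩ := hy
    refine ⟨c0 + e0, c1 + e1, c2 + e2, d0 + f0, d1 + f1, d2 + f2, ?_⟩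
    simp only [al, map_add]; ring
  | mul x y _ _ hx hy =>
    obtain ⟨c0, c1, c2, d0, d1, d2, rfl⟩ := hx
    obtain ⟨e0, e1, e2, f0, f1, f2, rfl⟩ := hy
    have hm : ∀ a0 a1 a2 b0 b1 b2 : ℚ_[3], al θ a0 a1 a2 * al θ b0 b1 b2
        = al θ (a0 * b0 + a1 * b2 + a2 * b1) (a0 * b1 + a1 * b0 + (a1 * b2 + a2 * b1) + a2 * b2)
          (a0 * b2 + a1 * b1 + a2 * b0 + a2 * b2) := by
      intro a0 a1 a2 b0 b1 b2
      simp only [al, map_add, map_mul]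
      have h4 : θ ^ 4 = θ ^ 2 + θ := by
        calc θ ^ 4 = θ * θ ^ 3 := by ring
          _ = θ ^ 2 + θ := by rw [hθ]; ring
      linear_combination (io a1 * io b2 + io a2 * io b1) * hθ + (io a2 * io b2) * h4
    have hp : (1 - ω) ^ 2 = 3 * (1 - ω) - 3 := by linear_combination hω
    -- the four products
    set A := al θ c0 c1 c2 with hA
    set B := al θ d0 d1 d2 with hB
    set C := al θ e0 e1 e2 with hC
    set D := al θ f0 f1 f2 with hD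
    have e : (A + (1 - ω) * B) * (C + (1 - ω) * D)
        = (A * C - 3 * (B * D)) + (1 - ω) * (A * D + B * C + 3 * (B * D)) := by
      linear_combination (B * D) * hp
    rw [e, hA, hB, hC, hD, hm, hm, hm, hm]
    refine ⟨(c0 * e0 + c1 * e2 + c2 * e1) - 3 * (d0 * f0 + d1 * f2 + d2 * f1),
      (c0 * e1 + c1 * e0 + (c1 * e2 + c2 * e1) + c2 * e2)
        - 3 * (d0 * f1 + d1 * f0 + (d1 * f2 + d2 * f1) + d2 * f2),
      (c0 * e2 + c1 * e1 + c2 * e0 + c2 * e2) - 3 * (d0 * f2 + d1 * f1 + d2 * f0 + d2 * f2),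
      (c0 * f0 + c1 * f2 + c2 * f1) + (d0 * e0 + d1 * e2 + d2 * e1)
        + 3 * (d0 * f0 + d1 * f2 + d2 * f1),
      (c0 * f1 + c1 * f0 + (c1 * f2 + c2 * f1) + c2 * f2)
        + (d0 * e1 + d1 * e0 + (d1 * e2 + d2 * e1) + d2 * e2)
        + 3 * (d0 * f1 + d1 * f0 + (d1 * f2 + d2 * f1) + d2 * f2),
      (c0 * f2 + c1 * f1 + c2 * f0 + c2 * f2) + (d0 * e2 + d1 * e1 + d2 * e0 + d2 * e2)
        + 3 * (d0 * f2 + d1 * f1 + d2 * f0 + d2 * f2), ?_⟩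
    simp only [al, map_add, map_mul, map_sub, map_ofNat]; ring

/-- the norm of a sum `α + π β` -/
lemma norm_form {θ ω : PadicAlgCl 3} (hθ : θ ^ 3 = θ + 1) (hω : ω ^ 2 + ω + 1 = 0)
    (c0 c1 c2 d0 d1 d2 : ℚ_[3]) :
    ‖al θ c0 c1 c2 + (1 - ω) * al θ d0 d1 d2‖ = max ‖al θ c0 c1 c2‖ ‖(1 - ω) * al θ d0 d1 d2‖ := by
  by_cases hA : al θ c0 c1 c2 = 0
  · rw [hA, zero_add, norm_zero, max_eq_right (norm_nonneg _)]
  by_cases hB : al θ d0 d1 d2 = 0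
  · rw [hB, mul_zero, add_zero, norm_zero, max_eq_left (norm_nonneg _)]
  apply IsUltrametricDist.norm_add_eq_max_of_norm_ne_norm
  intro he
  obtain ⟨n, hn⟩ := val_al hθ _ _ _ hA
  obtain ⟨m, hm⟩ := val_al hθ _ _ _ hB
  have h1 : ‖al θ c0 c1 c2‖ ^ 2 = (3 : ℝ) ^ (2 * n) := by
    rw [hn, ← zpow_natCast, ← zpow_mul]; congr 1; push_cast; ring
  have h2 : ‖(1 - ω) * al θ d0 d1 d2‖ ^ 2 = (3 : ℝ) ^ (2 * m - 1) := by
    rw [norm_mul, mul_pow, norm_pi hω, hm, ← zpow_natCast, ← zpow_mul, zpow_sub₀ (by norm_num)]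
    rw [show m * ((2 : ℕ) : ℤ) = 2 * m by push_cast; ring]
    rw [zpow_one]; ring
  rw [he, h2] at h1
  have := zpow_right_injective₀ (by norm_num : (0 : ℝ) < 3) (by norm_num) h1
  omega

/-! ### residues -/

lemma cg_trans {x y z : PadicAlgCl 3} (h1 : ‖x - y‖ < 1) (h2 : ‖y - z‖ < 1) : ‖x - z‖ < 1 := by
  have : x - z = (x - y) + (y - z) := by ring
  rw [this]
  exact (ultra _ _).trans_lt (max_lt h1 h2)

lemma cg_add {x y x' y' : PadicAlgCl 3} (h1 : ‖x - y‖ < 1) (h2 : ‖x' - y'‖ < 1) :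
    ‖(x + x') - (y + y')‖ < 1 := by
  have : (x + x') - (y + y') = (x - y) + (x' - y') := by ring
  rw [this]
  exact (ultra _ _).trans_lt (max_lt h1 h2)

lemma cg_cube {x y : PadicAlgCl 3} (hx : ‖x‖ ≤ 1) (hy : ‖y‖ ≤ 1) (h : ‖x - y‖ < 1) :
    ‖x ^ 3 - y ^ 3‖ < 1 := by
  have e : x ^ 3 - y ^ 3 = (x - y) * (x ^ 2 + x * y + y ^ 2) := by ring
  have h2 : ‖x ^ 2 + x * y + y ^ 2‖ ≤ 1 := by
    refine (ultra _ _).trans (max_le ((ultra _ _).trans (max_le ?_ ?_)) ?_)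
    · rw [norm_pow]; exact pow_le_one₀ (norm_nonneg _) hx
    · rw [norm_mul]; exact mul_le_one₀ hx (norm_nonneg _) hy
    · rw [norm_pow]; exact pow_le_one₀ (norm_nonneg _) hy
  rw [e, norm_mul]
  calc ‖x - y‖ * ‖x ^ 2 + x * y + y ^ 2‖ ≤ ‖x - y‖ * 1 := by gcongr
    _ < 1 := by linarith

lemma cg_cube_add {x y : PadicAlgCl 3} (hx : ‖x‖ ≤ 1) (hy : ‖y‖ ≤ 1) :
    ‖(x + y) ^ 3 - (x ^ 3 + y ^ 3)‖ < 1 := by
  have e : (x + y) ^ 3 - (x ^ 3 + y ^ 3) = 3 * (x * y * (x + y)) := by ring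
  have h2 : ‖x * y * (x + y)‖ ≤ 1 := by
    rw [norm_mul, norm_mul]
    exact mul_le_one₀ (mul_le_one₀ hx (norm_nonneg _) hy) (norm_nonneg _)
      ((ultra _ _).trans (max_le hx hy))
  rw [e, norm_mul, norm_three]
  linarith

lemma norm_io_le {c : ℚ_[3]} (hc : ‖c‖ ≤ 1) : ‖io c‖ ≤ 1 := by
  rw [norm_io]; exact hc

lemma zmod_cube : ∀ x : ℤ_[3], PadicInt.toZMod (x ^ 3 - x) = 0 := by
  intro x
  rw [map_sub, map_pow]
  exact zmod3_cube _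

lemma cg_frob_int {c : ℚ_[3]} (hc : ‖c‖ ≤ 1) : ‖io c ^ 3 - io c‖ < 1 := by
  obtain ⟨x, rfl⟩ : ∃ x : ℤ_[3], (x : ℚ_[3]) = c := ⟨⟨c, hc⟩, rfl⟩
  have h2 : x ^ 3 - x ∈ RingHom.ker (PadicInt.toZMod : ℤ_[3] →+* ZMod 3) := zmod_cube x
  rw [PadicInt.ker_toZMod, IsLocalRing.mem_maximalIdeal, PadicInt.mem_nonunits,
    PadicInt.norm_def] at h2
  rw [← map_pow, ← map_sub, norm_io]
  push_cast at h2
  exact h2

lemma norm_al_int {θ : PadicAlgCl 3} (hθ : θ ^ 3 = θ + 1) {c0 c1 c2 : ℚ_[3]} (h0 : ‖c0‖ ≤ 1)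
    (h1 : ‖c1‖ ≤ 1) (h2 : ‖c2‖ ≤ 1) : ‖al θ c0 c1 c2‖ ≤ 1 :=
  (norm_al_le hθ _ _ _).trans (max_le h0 (max_le h1 h2))

lemma q_add {x y : ℚ_[3]} (hx : ‖x‖ ≤ 1) (hy : ‖y‖ ≤ 1) : ‖x + y‖ ≤ 1 :=
  (Padic.nonarchimedean x y).trans (max_le hx hy)

lemma q_two {x : ℚ_[3]} (hx : ‖x‖ ≤ 1) : ‖2 * x‖ ≤ 1 := by
  rw [two_mul]; exact q_add hx hx

/-- Frobenius is `θ ↦ θ + 1` -/
lemma cg_frob {θ : PadicAlgCl 3} (hθ : θ ^ 3 = θ + 1) {c0 c1 c2 : ℚ_[3]} (k0 : ‖c0‖ ≤ 1)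
    (k1 : ‖c1‖ ≤ 1) (k2 : ‖c2‖ ≤ 1) :
    ‖al θ c0 c1 c2 ^ 3 - al θ (c0 + c1 + c2) (c1 + 2 * c2) c2‖ < 1 := by
  have h := norm_theta_le hθ
  have h1 : ‖io c1 * θ‖ ≤ 1 := by
    rw [norm_mul]; exact mul_le_one₀ (norm_io_le k1) (norm_nonneg _) h
  have h2 : ‖io c2 * θ ^ 2‖ ≤ 1 := by
    rw [norm_mul, norm_pow]
    exact mul_le_one₀ (norm_io_le k2) (by positivity) (pow_le_one₀ (norm_nonneg _) h)
  have h01 : ‖io c0 + io c1 * θ‖ ≤ 1 := (ultra _ _).trans (max_le (norm_io_le k0) h1)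
  have e1 := cg_cube_add h01 h2
  have e2 := cg_cube_add (norm_io_le k0) h1
  -- the coefficients
  have f0 := cg_frob_int k0
  have f1 : ‖(io c1 * θ) ^ 3 - io c1 * θ ^ 3‖ < 1 := by
    have : (io c1 * θ) ^ 3 - io c1 * θ ^ 3 = (io c1 ^ 3 - io c1) * θ ^ 3 := by ring
    rw [this, norm_mul, norm_pow]
    calc _ ≤ ‖io c1 ^ 3 - io c1‖ * 1 := by
          gcongr; exact pow_le_one₀ (norm_nonneg _) h
      _ < 1 := by rw [mul_one]; exact cg_frob_int k1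
  have f2 : ‖(io c2 * θ ^ 2) ^ 3 - io c2 * (θ ^ 3) ^ 2‖ < 1 := by
    have : (io c2 * θ ^ 2) ^ 3 - io c2 * (θ ^ 3) ^ 2 = (io c2 ^ 3 - io c2) * θ ^ 6 := by ring
    rw [this, norm_mul, norm_pow]
    calc _ ≤ ‖io c2 ^ 3 - io c2‖ * 1 := by
          gcongr; exact pow_le_one₀ (norm_nonneg _) h
      _ < 1 := by rw [mul_one]; exact cg_frob_int k2
  have g1 : ‖(io c0 ^ 3 + (io c1 * θ) ^ 3) - (io c0 + io c1 * θ ^ 3)‖ < 1 := cg_add f0 f1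
  have g2 := cg_trans e2 g1
  have g3 := cg_trans e1 (cg_add g2 f2)
  have e : al θ (c0 + c1 + c2) (c1 + 2 * c2) c2
      = io c0 + io c1 * θ ^ 3 + io c2 * (θ ^ 3) ^ 2 := by
    rw [hθ]
    simp only [al, map_add, map_mul, map_ofNat]
    ring
  rw [e]
  exact g3

lemma cg_27 {θ : PadicAlgCl 3} (hθ : θ ^ 3 = θ + 1) {c0 c1 c2 : ℚ_[3]} (k0 : ‖c0‖ ≤ 1)
    (k1 : ‖c1‖ ≤ 1) (k2 : ‖c2‖ ≤ 1) : ‖al θ c0 c1 c2 ^ 27 - al θ c0 c1 c2‖ < 1 := by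
  have k01 : ‖c0 + c1 + c2‖ ≤ 1 := q_add (q_add k0 k1) k2
  have k11 : ‖c1 + 2 * c2‖ ≤ 1 := q_add k1 (q_two k2)
  have k02 : ‖c0 + c1 + c2 + (c1 + 2 * c2) + c2‖ ≤ 1 := q_add (q_add k01 k11) k2
  have k12 : ‖c1 + 2 * c2 + 2 * c2‖ ≤ 1 := q_add k11 (q_two k2)
  have s1 := cg_frob hθ k0 k1 k2
  have s2 := cg_frob hθ k01 k11 k2
  have s3 := cg_frob hθ k02 k12 k2
  have n0 := norm_al_int hθ k0 k1 k2
  have n1 := norm_al_int hθ k01 k11 k2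
  have n2 := norm_al_int hθ k02 k12 k2
  have p1 : ‖al θ c0 c1 c2 ^ 3‖ ≤ 1 := by rw [norm_pow]; exact pow_le_one₀ (norm_nonneg _) n0
  have t1 := cg_trans (cg_cube p1 n1 s1) s2
  have p2 : ‖(al θ c0 c1 c2 ^ 3) ^ 3‖ ≤ 1 := by
    rw [norm_pow]; exact pow_le_one₀ (norm_nonneg _) p1
  have t2 := cg_trans (cg_cube p2 n2 t1) s3
  have t3 : ‖al θ (c0 + c1 + c2 + (c1 + 2 * c2) + c2 + (c1 + 2 * c2 + 2 * c2) + c2)
      (c1 + 2 * c2 + 2 * c2 + 2 * c2) c2 - al θ c0 c1 c2‖ < 1 := by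
    have e : al θ (c0 + c1 + c2 + (c1 + 2 * c2) + c2 + (c1 + 2 * c2 + 2 * c2) + c2)
        (c1 + 2 * c2 + 2 * c2 + 2 * c2) c2 - al θ c0 c1 c2
        = 3 * al θ (c1 + 2 * c2 + c2) (2 * c2) 0 := by
      simp only [al, map_add, map_mul, map_ofNat, map_zero]
      ring
    rw [e, norm_mul, norm_three]
    have := norm_al_int hθ (q_add k11 k2) (q_two k2) (by simp : ‖(0 : ℚ_[3])‖ ≤ 1)
    linarith
  have t4 := cg_trans t2 t3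
  have e27 : al θ c0 c1 c2 ^ 27 = ((al θ c0 c1 c2 ^ 3) ^ 3) ^ 3 := by
    rw [← pow_mul, ← pow_mul]
  rw [e27]
  exact t4

end PA1

open PA1

/-- row PA1: elements of `F1 = ℚ_3(θ, ω)` have norm in `3^(ℤ/2)`. -/
theorem f1_val [Fact (Nat.Prime 3)] (θ ω : PadicAlgCl 3) (hθ : θ ^ 3 = θ + 1)
    (hω : ω ^ 2 + ω + 1 = 0) (y : PadicAlgCl 3)
    (hy : y ∈ IntermediateField.adjoin ℚ_[3] {θ, ω}) (hy0 : y ≠ 0) :
    ∃ n : ℤ, ‖y‖ ^ 2 = (3 : ℝ) ^ n := by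
  obtain ⟨c0, c1, c2, d0, d1, d2, rfl⟩ := mem_form hθ hω hy
  have hpos := norm_pos_iff.mpr hy0
  rw [norm_form hθ hω] at hpos ⊢
  rcases max_choice ‖al θ c0 c1 c2‖ ‖(1 - ω) * al θ d0 d1 d2‖ with h | h
  · rw [h] at hpos ⊢
    obtain ⟨n, hn⟩ := val_al hθ _ _ _ (norm_pos_iff.mp hpos)
    refine ⟨2 * n, ?_⟩
    rw [hn, ← zpow_natCast, ← zpow_mul]; congr 1; push_cast; ring
  · rw [h] at hpos ⊢
    have hne := norm_pos_iff.mp hpos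
    obtain ⟨m, hm⟩ := val_al hθ _ _ _ (right_ne_zero_of_mul hne)
    refine ⟨2 * m - 1, ?_⟩
    rw [norm_mul, mul_pow, norm_pi hω, hm, ← zpow_natCast, ← zpow_mul, zpow_sub₀ (by norm_num)]
    rw [show m * ((2 : ℕ) : ℤ) = 2 * m by push_cast; ring]
    rw [zpow_one]; ring

/-- row PA1: an integral element `y` of `F1` satisfies `y^27 = y` in the residue field. -/
theorem f1_res [Fact (Nat.Prime 3)] (θ ω : PadicAlgCl 3) (hθ : θ ^ 3 = θ + 1)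
    (hω : ω ^ 2 + ω + 1 = 0) (y : PadicAlgCl 3)
    (hy : y ∈ IntermediateField.adjoin ℚ_[3] {θ, ω}) (hy1 : ‖y‖ ≤ 1) :
    ‖y ^ 27 - y‖ < 1 := by
  obtain ⟨c0, c1, c2, d0, d1, d2, rfl⟩ := mem_form hθ hω hy
  have hn := norm_form hθ hω c0 c1 c2 d0 d1 d2
  set y := al θ c0 c1 c2 + (1 - ω) * al θ d0 d1 d2 with hy'
  have hA : ‖al θ c0 c1 c2‖ ≤ 1 := by
    refine le_trans ?_ hy1
    rw [hn]; exact le_max_left _ _
  have hB : ‖(1 - ω) * al θ d0 d1 d2‖ ≤ 1 := by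
    refine le_trans ?_ hy1
    rw [hn]; exact le_max_right _ _
  have hB1 : ‖(1 - ω) * al θ d0 d1 d2‖ < 1 := by
    by_cases h0 : al θ d0 d1 d2 = 0
    · rw [h0, mul_zero, norm_zero]; exact one_pos
    · obtain ⟨m, hm⟩ := val_al hθ _ _ _ h0
      have h2 : ‖(1 - ω) * al θ d0 d1 d2‖ ^ 2 = (3 : ℝ) ^ (2 * m - 1) := by
        rw [norm_mul, mul_pow, norm_pi hω, hm, ← zpow_natCast, ← zpow_mul,
          zpow_sub₀ (by norm_num)]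
        rw [show m * ((2 : ℕ) : ℤ) = 2 * m by push_cast; ring]
        rw [zpow_one]; ring
      refine lt_of_le_of_ne hB fun h1 => ?_
      rw [h1, one_pow] at h2
      have h3 : (3 : ℝ) ^ (0 : ℤ) = (3 : ℝ) ^ (2 * m - 1) := by rw [← h2, zpow_zero]
      have := zpow_right_injective₀ (by norm_num : (0 : ℝ) < 3) (by norm_num) h3
      omega
  -- integral coefficients
  rw [norm_al hθ] at hA
  have hc0 : ‖c0‖ ≤ 1 := (le_max_left _ _).trans hA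
  have hc1 : ‖c1‖ ≤ 1 := ((le_max_left _ _).trans (le_max_right _ _)).trans hA
  have hc2 : ‖c2‖ ≤ 1 := ((le_max_right _ _).trans (le_max_right _ _)).trans hA
  have hα := cg_27 hθ hc0 hc1 hc2
  have hα1 := norm_al_int hθ hc0 hc1 hc2
  have hd : ‖y - al θ c0 c1 c2‖ < 1 := by
    rw [hy', add_sub_cancel_left]; exact hB1
  have q1 := cg_cube hy1 hα1 hd
  have p1 : ‖y ^ 3‖ ≤ 1 := by rw [norm_pow]; exact pow_le_one₀ (norm_nonneg _) hy1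
  have p1' : ‖al θ c0 c1 c2 ^ 3‖ ≤ 1 := by
    rw [norm_pow]; exact pow_le_one₀ (norm_nonneg _) hα1
  have q2 := cg_cube p1 p1' q1
  have p2 : ‖(y ^ 3) ^ 3‖ ≤ 1 := by rw [norm_pow]; exact pow_le_one₀ (norm_nonneg _) p1
  have p2' : ‖(al θ c0 c1 c2 ^ 3) ^ 3‖ ≤ 1 := by
    rw [norm_pow]; exact pow_le_one₀ (norm_nonneg _) p1'
  have q3 := cg_cube p2 p2' q2
  have e1 : y ^ 27 = ((y ^ 3) ^ 3) ^ 3 := by rw [← pow_mul, ← pow_mul]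
  have e2 : al θ c0 c1 c2 ^ 27 = ((al θ c0 c1 c2 ^ 3) ^ 3) ^ 3 := by rw [← pow_mul, ← pow_mul]
  rw [e2] at hα
  rw [e1]
  refine cg_trans q3 (cg_trans hα ?_)
  rw [← norm_neg, neg_sub]; exact hd

end Pool.Agent.Arb
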